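import Pool.Agent.Helper80.KC.Goals

/-!
# Project KC (MP_eaa1a7_co), packet RED: the reduction
-/

set_option autoImplicit false

open Module

namespace Pool.Agent.Helper14.KC

open Pool.Agent.Helper80.KC

/-- a subspace of dimension at most one with a nonzero vector -/
theorem eq_span {V : Type} [NormedAddCommGroup V] [InnerProductSpace ℝ V]
    [FiniteDimensional ℝ V] {K : Submodule ℝ V} {a : V} (ha : a ≠ 0) (haK : a ∈ K)
    (h : finrank ℝ K ≤ 1) : K = Submodule.span ℝ {a} := by
  symm
  apply Submodule.eq_of_le_of_finrank_le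
  · rwa [Submodule.span_singleton_le_iff_mem]
  · rwa [finrank_span_singleton ha]

theorem goalRED (hS : G_STAR) (hM : G_MET) (hA : G_ALL) (hEA : G_ENDA) (hEB : G_ENDB) :
    G_RED := by
  intro k V _ _ _ hC
  by_contra hno
  obtain ⟨N, p, f, hc⟩ := hC
  obtain ⟨i, j, hij, hdim⟩ : ∃ i j, i ≠ j ∧ finrank ℝ (N i ⊓ N j : Submodule ℝ V) ≤ 1 := by
    by_contra hcon
    apply hno
    apply hEA k V N p f hc
    intro i j hij
    by_contra h
    exact hcon ⟨i, j, hij, by omega⟩
  obtain ⟨l, hl⟩ := hS k V N p f hc hno i j hij hdim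
  obtain ⟨u, v, w, hset, huv, hvw, huw, hpu, hpv, -⟩ := hM k V N p f hc i j l hij hl
  obtain ⟨a, hadef⟩ : ∃ a, a = f i j := ⟨_, rfl⟩
  have haN : ∀ x, a ∈ N x := by
    rw [hadef]
    exact hA k V N p f hc hno i j hij hdim
  have hna : ‖a‖ = 1 := by
    rw [hadef]
    exact hc.fn i j hij
  have hcap := hl.cap
  rw [← hadef] at hpu hpv hcap
  have ha : a ≠ 0 := by
    rintro rfl
    rw [norm_zero] at hna
    exact zero_ne_one hna
  have h12 : N i ⊓ N j = Submodule.span ℝ {a} := eq_span ha ⟨haN i, haN j⟩ hdim
  have h31 : N l ⊓ N i = Submodule.span ℝ {a} := by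
    refine le_antisymm (le_trans (inf_le_inf_left _ le_sup_left) hcap.le) ?_
    rw [Submodule.span_singleton_le_iff_mem]
    exact ⟨haN l, haN i⟩
  have h32 : N l ⊓ N j = Submodule.span ℝ {a} := by
    refine le_antisymm (le_trans (inf_le_inf_left _ le_sup_right) hcap.le) ?_
    rw [Submodule.span_singleton_le_iff_mem]
    exact ⟨haN l, haN j⟩
  have h21 : N j ⊓ N i = Submodule.span ℝ {a} := by rw [inf_comm, h12]
  have h13 : N i ⊓ N l = Submodule.span ℝ {a} := by rw [inf_comm, h31]
  have h23 : N j ⊓ N l = Submodule.span ℝ {a} := by rw [inf_comm, h32]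
  have hpair : ∀ s t, s ∈ ({i, j, l} : Set (Fin k)) → t ∈ ({i, j, l} : Set (Fin k)) → s ≠ t →
      N s ⊓ N t = Submodule.span ℝ {a} := by
    intro s t hs ht hst
    simp only [Set.mem_insert_iff, Set.mem_singleton_iff] at hs ht
    rcases hs with hs | hs | hs <;> rcases ht with ht | ht | ht <;> rw [hs, ht] <;>
      first
        | exact absurd (hs.trans ht.symm) hst
        | assumption
  have huvs : N u ⊓ N v = Submodule.span ℝ {a} := by
    apply hpair u v _ _ huv
    · rw [← hset]; simp
    · rw [← hset]; simp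
  have hclaim : ∀ x y, x ≠ u → x ≠ v → y ≠ u → y ≠ v →
      2 ≤ finrank ℝ (N x ⊓ N y : Submodule ℝ V) := by
    intro x y hxu hxv hyu hyv
    by_cases hxy : x = y
    · subst hxy
      rw [inf_idem, hc.dim]
      norm_num
    · by_contra hlt
      have hd : finrank ℝ (N x ⊓ N y : Submodule ℝ V) ≤ 1 := by omega
      have hs : N x ⊓ N y = Submodule.span ℝ {a} := eq_span ha ⟨haN x, haN y⟩ hd
      have hf : f x y = a ∨ f x y = -a := by
        have hm : f x y ∈ N x ⊓ N y := ⟨hc.fl x y hxy, hc.fr x y hxy⟩
        rw [hs] at hm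
        obtain ⟨c, hc'⟩ := Submodule.mem_span_singleton.1 hm
        have hn := hc.fn x y hxy
        rw [← hc', norm_smul, hna, mul_one, Real.norm_eq_abs] at hn
        rcases (abs_eq zero_le_one).1 hn with h | h
        · left
          rw [← hc', h, one_smul]
        · right
          rw [← hc', h, neg_smul, one_smul]
      obtain ⟨l', hl'⟩ := hS k V N p f hc hno x y hxy hd
      obtain ⟨u', v', w', hset', -, -, -, hpu', hpv', -⟩ := hM k V N p f hc x y l' hxy hl'
      obtain ⟨z, hz, hpz⟩ : ∃ z, (z = x ∨ z = y) ∧ (p z = f x y ∨ p z = - f x y) := by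
        have hx : x ∈ ({u', v', w'} : Set (Fin k)) := by rw [hset']; simp
        have hy : y ∈ ({u', v', w'} : Set (Fin k)) := by rw [hset']; simp
        simp only [Set.mem_insert_iff, Set.mem_singleton_iff] at hx hy
        rcases hx with hx | hx | hx
        · exact ⟨x, Or.inl rfl, Or.inl ((congrArg p hx).trans hpu')⟩
        · exact ⟨x, Or.inl rfl, Or.inr ((congrArg p hx).trans hpv')⟩
        · rcases hy with hy | hy | hy
          · exact ⟨y, Or.inr rfl, Or.inl ((congrArg p hy).trans hpu')⟩
          · exact ⟨y, Or.inr rfl, Or.inr ((congrArg p hy).trans hpv')⟩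
          · exact absurd (hx.trans hy.symm) hxy
      have hzu : z ≠ u := by
        rcases hz with hz | hz
        · rw [hz]; exact hxu
        · rw [hz]; exact hyu
      have hzv : z ≠ v := by
        rcases hz with hz | hz
        · rw [hz]; exact hxv
        · rw [hz]; exact hyv
      have hpz' : p z = a ∨ p z = -a := by
        rcases hf with hf | hf <;> rcases hpz with h | h <;> rw [hf] at h
        · exact Or.inl h
        · exact Or.inr h
        · exact Or.inr h
        · rw [neg_neg] at h
          exact Or.inl h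
      rcases hpz' with h | h
      · have := hc.sep z u hzu
        rw [h, hpu, sub_self, inner_zero_left, abs_zero] at this
        norm_num at this
      · have := hc.sep z v hzv
        rw [h, hpv, sub_self, inner_zero_left, abs_zero] at this
        norm_num at this
  exact hno (hEB k V N p f a u v w hc ha haN huv huw.symm hvw.symm huvs hclaim)

end Pool.Agent.Helper14.KC
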