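import Pool.Agent.Helper94.KC.GoalsC

/-!
# Packet KC-ST (straight and corner vertices of a cycle)
-/

set_option autoImplicit false

namespace Pool.Agent.Helper14.KC

open scoped Classical
open Finset
open Pool.Agent.Helper94.KC

/-- the six directions -/
def dd : Fin 6 → ℤ × ℤ := ![(1, 0), (0, 1), (-1, 1), (-1, 0), (0, -1), (1, -1)]

theorem hn_dd : ∀ j, hn (dd j) = 1 := by decide

theorem hn_dd_succ : ∀ j, hn (dd (j + 1) - dd j) = 1 := by decide

theorem dd_inj : ∀ i j, dd i = dd j → i = j := by decide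

theorem dd_neg : ∀ i j : Fin 6, dd j + dd i = 0 → j = i + 3 := by decide

theorem dd_two : ∀ i j : Fin 6, hn (dd j - dd i) = 2 → j ≠ i + 1 ∧ j ≠ i - 1 := by decide

theorem hn_one (r : ℤ × ℤ) (h : hn r = 1) : ∃ j, r = dd j := by
  obtain ⟨x, y⟩ := r
  unfold hn at h
  simp only at h
  have hx1 : -1 ≤ x := by omega
  have hx2 : x ≤ 1 := by omega
  have hy1 : -1 ≤ y := by omega
  have hy2 : y ≤ 1 := by omega
  interval_cases x <;> interval_cases y <;> first
    | exact ⟨0, rfl⟩
    | exact ⟨1, rfl⟩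
    | exact ⟨2, rfl⟩
    | exact ⟨3, rfl⟩
    | exact ⟨4, rfl⟩
    | exact ⟨5, rfl⟩
    | (exfalso; revert h; decide)

set_option maxRecDepth 100000 in
theorem arcs : ∀ s : Fin 6 → Bool, ∀ a b : Fin 6, a ≠ b →
    (∀ j : Fin 6, ((s (j - 1) ^^ s j) = true) ↔ (j = a ∨ j = b)) →
    (b = a + 3 → (univ.filter (fun j => s j = true)).card = 3) ∧
    (b ≠ a + 1 ∧ b ≠ a - 1 → 2 ≤ (univ.filter (fun j => s j = true)).card) := by
  decide

theorem st : StmtST := by
  intro V _ T n f hS hf D hD p q q' hp hq hq' hqq hbd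
  obtain ⟨a, ha⟩ := hn_one _ hq
  obtain ⟨b, hb⟩ := hn_one _ hq'
  have hqa : q = p + dd a := by rw [← ha]; abel
  have hqb : q' = p + dd b := by rw [← hb]; abel
  subst hqa hqb
  have hab : a ≠ b := fun h => hqq (by rw [h])
  set v := f p with hv
  set g : Fin 6 → V := fun j => f (p + dd j) with hg
  have hsub : ∀ j, p + dd j - p = dd j := fun j => by abel
  have h1 : ∀ j, hn (p + dd j - p) = 1 := fun j => by rw [hsub]; exact hn_dd j
  have ginj : ∀ i j, g i = g j → i = j := by
    intro i j hij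
    have h2 := hf.inj p hp (p + dd i) (p + dd j) (h1 i) (h1 j) hij
    exact dd_inj i j (add_left_cancel h2)
  have hadj : ∀ u, (sk T).Adj v u ↔ ∃ j, g j = u := by
    intro u
    rw [hf.nb p hp u]
    constructor
    · rintro ⟨r, hr, rfl⟩
      obtain ⟨j, hj⟩ := hn_one _ hr
      refine ⟨j, ?_⟩
      rw [hg]
      simp only
      congr 1
      rw [← hj]
      abel
    · rintro ⟨j, rfl⟩
      exact ⟨p + dd j, h1 j, rfl⟩
  have hvg : ∀ j, v ≠ g j := fun j => ((hadj (g j)).2 ⟨j, rfl⟩).ne
  have hs1 : ∀ j : Fin 6, j + 1 ≠ j := by decide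
  have hs2 : ∀ j : Fin 6, j - 1 + 1 = j := by decide
  have hs3 : ∀ j : Fin 6, j - 1 ≠ j := by decide
  set t : Fin 6 → Finset V := fun j => {v, g j, g (j + 1)} with ht
  have hgg : ∀ j, g j ≠ g (j + 1) := fun j h => hs1 j (ginj _ _ h).symm
  have hcard : ∀ j, (t j).card = 3 := fun j =>
    Finset.card_eq_three.2 ⟨v, g j, g (j + 1), hvg j, hvg (j + 1), hgg j, rfl⟩
  have htT : ∀ j, t j ∈ T := by
    intro j
    have h2 : hn (p + dd (j + 1) - (p + dd j)) = 1 := by
      rw [add_sub_add_left_eq_sub]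
      exact hn_dd_succ j
    obtain ⟨-, -, -, t', ht', hv', h3, h4⟩ := hf.lk p hp _ _ (h1 j) (h1 (j + 1)) h2
    have h5 : t j ⊆ t' := by
      intro x hx
      simp only [ht, mem_insert, mem_singleton] at hx
      rcases hx with rfl | rfl | rfl
      · exact hv'
      · exact h3
      · exact h4
    have h6 : t j = t' := Finset.eq_of_subset_of_card_le h5 (by rw [hS.card t' ht', hcard])
    rw [h6]
    exact ht'
  have hvt : ∀ j, v ∈ t j := fun j => by simp [ht]
  have hgt : ∀ j, g j ∈ t j := fun j => by simp [ht]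
  have hgt1 : ∀ j, g j ∈ t (j - 1) := fun j => by simp [ht, hs2]
  have hmem : ∀ i j, g i ∈ t j → i = j ∨ i = j + 1 := by
    intro i j h
    simp only [ht, mem_insert, mem_singleton] at h
    rcases h with h | h | h
    · exact absurd h.symm (hvg i)
    · exact Or.inl (ginj _ _ h)
    · exact Or.inr (ginj _ _ h)
  have hfin : ∀ i j : Fin 6, (i = j ∨ i = j + 1) → (i + 1 = j ∨ i + 1 = j + 1) → i = j := by decide
  have tinj : Function.Injective t := by
    intro i j hij
    refine hfin i j (hmem i j ?_) (hmem (i + 1) j ?_)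
    · rw [← hij]
      exact hgt i
    · rw [← hij]
      simp [ht]
  -- the triangles at an edge
  have htwo : ∀ j, T.filter (fun s => v ∈ s ∧ g j ∈ s) = {t (j - 1), t j} := by
    intro j
    symm
    refine Finset.eq_of_subset_of_card_le ?_ ?_
    · intro s hs
      rw [mem_insert, mem_singleton] at hs
      rcases hs with rfl | rfl
      · exact mem_filter.2 ⟨htT _, hvt _, hgt1 j⟩
      · exact mem_filter.2 ⟨htT _, hvt _, hgt j⟩
    · rw [hS.two v (g j) ((hadj (g j)).2 ⟨j, rfl⟩),
        Finset.card_pair (fun h => hs3 j (tinj h))]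
  have hall : ∀ s ∈ T, v ∈ s → ∃ j, s = t j := by
    intro s hs hvs
    have h2 : 1 < s.card := by rw [hS.card s hs]; norm_num
    obtain ⟨u, hu, huv⟩ := Finset.exists_mem_ne h2 v
    obtain ⟨j, rfl⟩ := (hadj u).1 ⟨huv.symm, s, hs, hvs, hu⟩
    have h3 : s ∈ T.filter (fun s => v ∈ s ∧ g j ∈ s) := mem_filter.2 ⟨hs, hvs, hu⟩
    rw [htwo, mem_insert, mem_singleton] at h3
    rcases h3 with h3 | h3
    · exact ⟨_, h3⟩
    · exact ⟨_, h3⟩
  -- the number of the triangles of `D` at `v`
  let s : Fin 6 → Bool := fun j => decide (t j ∈ D)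
  have hnum : (D.filter (fun r => v ∈ r)).card = (univ.filter (fun j => s j = true)).card := by
    rw [← Finset.card_image_of_injective _ tinj]
    congr 1
    ext r
    rw [mem_filter, mem_image]
    constructor
    · rintro ⟨hr, hvr⟩
      obtain ⟨j, rfl⟩ := hall r (hD hr) hvr
      exact ⟨j, by simp [s, hr], rfl⟩
    · rintro ⟨j, hj, rfl⟩
      rw [mem_filter] at hj
      have h2 : t j ∈ D := by simpa [s] using hj.2
      exact ⟨h2, hvt j⟩
  -- the edges at `v` in the boundary
  have hx : ∀ j : Fin 6, ((s (j - 1) ^^ s j) = true) ↔ (j = a ∨ j = b) := by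
    intro j
    have he : ({v, g j} : Finset V) ∈ ed T := by
      unfold ed
      rw [mem_filter]
      refine ⟨mem_univ _, Finset.card_pair (hvg j), t j, htT j, ?_⟩
      intro x hx
      rw [mem_insert, mem_singleton] at hx
      rcases hx with rfl | rfl
      · exact hvt j
      · exact hgt j
    have h2 := hbd _ he (mem_insert_self _ _)
    have h3 : ∀ i, ({v, g j} : Finset V) = {v, g i} ↔ j = i := by
      intro i
      constructor
      · intro h
        have h4 : g j ∈ ({v, g i} : Finset V) := by rw [← h]; simp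
        rw [mem_insert, mem_singleton] at h4
        rcases h4 with h4 | h4
        · exact absurd h4.symm (hvg j)
        · exact ginj _ _ h4
      · rintro rfl
        rfl
    have h4 : ({v, g j} : Finset V) ∈ bd T D ↔ (j = a ∨ j = b) := by
      rw [h2]
      exact or_congr (h3 a) (h3 b)
    rw [← h4]
    unfold bd
    rw [mem_filter, and_iff_right he]
    have h5 : D.filter (fun r => ({v, g j} : Finset V) ⊆ r) =
        ({t (j - 1), t j} : Finset (Finset V)).filter (fun r => r ∈ D) := by
      ext r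
      rw [mem_filter, mem_filter, ← htwo, mem_filter, Finset.insert_subset_iff,
        Finset.singleton_subset_iff]
      constructor
      · rintro ⟨hr, h6, h7⟩
        exact ⟨⟨hD hr, h6, h7⟩, hr⟩
      · rintro ⟨⟨-, h6, h7⟩, hr⟩
        exact ⟨hr, h6, h7⟩
    rw [h5]
    have hne : t (j - 1) ≠ t j := fun h => hs3 j (tinj h)
    by_cases c1 : t (j - 1) ∈ D <;> by_cases c2 : t j ∈ D <;>
      simp [s, Finset.filter_insert, Finset.filter_singleton, c1, c2, Finset.card_pair hne]
  obtain ⟨k1, k2⟩ := arcs s a b hab hx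
  rw [hnum]
  refine ⟨fun h => k1 ?_, fun h => k2 ?_⟩
  · apply dd_neg
    have h2 : dd b + dd a = (p + dd b + (p + dd a)) - (p + p) := by abel
    rw [h2, h, sub_self]
  · apply dd_two
    rwa [add_sub_add_left_eq_sub] at h

end Pool.Agent.Helper14.KC
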